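import Mathlib

set_option autoImplicit false

/-!
# The pure braid group on two strands of a closed surface

We use the presentation of `P₂(Σ_b)` due to Gonçalves and Guaschi, in the form used in the work on
diagonal double Kodaira structures.  Commutators are `⁅x, y⁆ = x y x⁻¹ y⁻¹`.
-/

open scoped commutatorElement

namespace Pool.Agent.Helper36.Braid

/-- The generators `ρ_{1j}, τ_{1j}, ρ_{2j}, τ_{2j}` (`j` in `Fin b`) and `A₁₂`. -/
inductive Gen (b : ℕ) : Type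
  | r1 (j : Fin b) : Gen b
  | t1 (j : Fin b) : Gen b
  | r2 (j : Fin b) : Gen b
  | t2 (j : Fin b) : Gen b
  | A : Gen b

/-- The list of defining relations `u = v` between elements `r1 j = ρ_{1j}`, `t1 j = τ_{1j}`,
`r2 j = ρ_{2j}`, `t2 j = τ_{2j}`, `z = A₁₂` of a group `G`:
`BraidEq r1 t1 r2 t2 z u v` says that `u = v` is one of the relations. -/
inductive BraidEq {b : ℕ} {G : Type*} [Group G] (r1 t1 r2 t2 : Fin b → G) (z : G) : G → G → Prop
  /-- first surface relation,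
  `[ρ_{1b}⁻¹, τ_{1b}⁻¹] τ_{1b}⁻¹ ⋯ [ρ_{11}⁻¹, τ_{11}⁻¹] τ_{11}⁻¹ (τ_{11} ⋯ τ_{1b}) = A₁₂` -/
  | surf1 : BraidEq r1 t1 r2 t2 z
      ((List.ofFn fun j : Fin b => ⁅(r1 j)⁻¹, (t1 j)⁻¹⁆ * (t1 j)⁻¹).reverse.prod *
        (List.ofFn fun j : Fin b => t1 j).prod) z
  /-- second surface relation,
  `[ρ_{21}⁻¹, τ_{21}] τ_{21} ⋯ [ρ_{2b}⁻¹, τ_{2b}] τ_{2b} (τ_{2b}⁻¹ ⋯ τ_{21}⁻¹) = A₁₂⁻¹` -/
  | surf2 : BraidEq r1 t1 r2 t2 z
      ((List.ofFn fun j : Fin b => ⁅(r2 j)⁻¹, t2 j⁆ * t2 j).prod *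
        (List.ofFn fun j : Fin b => (t2 j)⁻¹).reverse.prod) z⁻¹
  | r1r2_lt (j k : Fin b) (h : j < k) : BraidEq r1 t1 r2 t2 z ⁅r1 j, r2 k⁆ 1
  | r1r2_eq (j : Fin b) : BraidEq r1 t1 r2 t2 z ⁅r1 j, r2 j⁆ 1
  | r1r2_gt (j k : Fin b) (h : k < j) : BraidEq r1 t1 r2 t2 z ⁅r1 j, r2 k⁆
      (z⁻¹ * r2 k * (r2 j)⁻¹ * z * r2 j * (r2 k)⁻¹)
  | r1t2_lt (j k : Fin b) (h : j < k) : BraidEq r1 t1 r2 t2 z ⁅r1 j, t2 k⁆ 1
  | r1t2_eq (j : Fin b) : BraidEq r1 t1 r2 t2 z ⁅r1 j, t2 j⁆ z⁻¹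
  | r1t2_gt (j k : Fin b) (h : k < j) : BraidEq r1 t1 r2 t2 z ⁅r1 j, t2 k⁆ ⁅z⁻¹, t2 k⁆
  | r1A (j : Fin b) : BraidEq r1 t1 r2 t2 z ⁅r1 j, z⁆ ⁅(r2 j)⁻¹, z⁆
  | t1r2_lt (j k : Fin b) (h : j < k) : BraidEq r1 t1 r2 t2 z ⁅t1 j, r2 k⁆ 1
  | t1r2_eq (j : Fin b) : BraidEq r1 t1 r2 t2 z ⁅t1 j, r2 j⁆ ((t2 j)⁻¹ * z * t2 j)
  | t1r2_gt (j k : Fin b) (h : k < j) : BraidEq r1 t1 r2 t2 z ⁅t1 j, r2 k⁆ ⁅(t2 j)⁻¹, z⁆
  | t1t2_lt (j k : Fin b) (h : j < k) : BraidEq r1 t1 r2 t2 z ⁅t1 j, t2 k⁆ 1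
  | t1t2_eq (j : Fin b) : BraidEq r1 t1 r2 t2 z ⁅t1 j, t2 j⁆ ⁅(t2 j)⁻¹, z⁆
  | t1t2_gt (j k : Fin b) (h : k < j) : BraidEq r1 t1 r2 t2 z ⁅t1 j, t2 k⁆
      ((t2 j)⁻¹ * z * t2 j * z⁻¹ * t2 k * z * (t2 j)⁻¹ * z⁻¹ * t2 j * (t2 k)⁻¹)
  | t1A (j : Fin b) : BraidEq r1 t1 r2 t2 z ⁅t1 j, z⁆ ⁅(t2 j)⁻¹, z⁆

/-- The relators `u v⁻¹` of the presentation, as elements of the free group. -/
def rels (b : ℕ) : Set (FreeGroup (Gen b)) :=
  {w | ∃ u v : FreeGroup (Gen b),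
    BraidEq (fun j => FreeGroup.of (Gen.r1 j)) (fun j => FreeGroup.of (Gen.t1 j))
      (fun j => FreeGroup.of (Gen.r2 j)) (fun j => FreeGroup.of (Gen.t2 j))
      (FreeGroup.of Gen.A) u v ∧ w = u * v⁻¹}

/-- The pure braid group `P₂(Σ_b)` of the closed orientable surface of genus `b` on two strands. -/
abbrev P2 (b : ℕ) : Type := PresentedGroup (rels b)

/-- The element `A₁₂` of `P₂(Σ_b)`: one strand winds once around the other. -/
def A12 (b : ℕ) : P2 b := PresentedGroup.of Gen.A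

/-- A finite group `G` is an admissible quotient of `P₂(Σ_b)` if there is a surjective homomorphism
`φ : P₂(Σ_b) → G` such that `φ(A₁₂)` has order at least `2`. -/
def IsAdmissibleQuotient (b : ℕ) (G : Type*) [Group G] : Prop :=
  Finite G ∧ ∃ φ : P2 b →* G, Function.Surjective φ ∧ 2 ≤ orderOf (φ (A12 b))

/-- The set of orders of admissible quotients of `P₂(Σ_b)`. -/
def admissibleOrders (b : ℕ) : Set ℕ :=
  {n | ∃ (G : Type) (_ : Group G), IsAdmissibleQuotient b G ∧ Nat.card G = n}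

/-- `G_b`, the least order of an admissible quotient of `P₂(Σ_b)`. -/
noncomputable def minOrder (b : ℕ) : ℕ := sInf (admissibleOrders b)

/-! ### Basic facts -/

/-- Relations are preserved by homomorphisms. -/
theorem BraidEq.map {b : ℕ} {G H : Type*} [Group G] [Group H] {r1 t1 r2 t2 : Fin b → G} {z : G}
    (f : G →* H) {u v : G} (h : BraidEq r1 t1 r2 t2 z u v) :
    BraidEq (fun j => f (r1 j)) (fun j => f (t1 j)) (fun j => f (r2 j)) (fun j => f (t2 j)) (f z)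
      (f u) (f v) := by
  have key1 : f ((List.ofFn fun j : Fin b => ⁅(r1 j)⁻¹, (t1 j)⁻¹⁆ * (t1 j)⁻¹).reverse.prod *
        (List.ofFn fun j : Fin b => t1 j).prod) =
      ((List.ofFn fun j : Fin b => ⁅(f (r1 j))⁻¹, (f (t1 j))⁻¹⁆ * (f (t1 j))⁻¹).reverse.prod *
        (List.ofFn fun j : Fin b => f (t1 j)).prod) := by
    rw [map_mul, map_list_prod, map_list_prod, List.map_reverse, List.map_ofFn, List.map_ofFn]
    congr 4
    funext j
    simp only [Function.comp, map_mul, map_inv, map_commutatorElement]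
  have key2 : f ((List.ofFn fun j : Fin b => ⁅(r2 j)⁻¹, t2 j⁆ * t2 j).prod *
        (List.ofFn fun j : Fin b => (t2 j)⁻¹).reverse.prod) =
      ((List.ofFn fun j : Fin b => ⁅(f (r2 j))⁻¹, f (t2 j)⁆ * f (t2 j)).prod *
        (List.ofFn fun j : Fin b => (f (t2 j))⁻¹).reverse.prod) := by
    rw [map_mul, map_list_prod, map_list_prod, List.map_reverse, List.map_ofFn, List.map_ofFn]
    congr 3
    · funext j
      simp only [Function.comp, map_mul, map_inv, map_commutatorElement]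
    · congr 2
      funext j
      simp only [Function.comp, map_inv]
  cases h with
  | surf1 => rw [key1]; exact BraidEq.surf1
  | surf2 => rw [key2, map_inv]; exact BraidEq.surf2
  | r1r2_lt j k h =>
    rw [map_commutatorElement, map_one]; exact BraidEq.r1r2_lt j k h
  | r1r2_eq j => rw [map_commutatorElement, map_one]; exact BraidEq.r1r2_eq j
  | r1r2_gt j k h =>
    simp only [map_commutatorElement, map_mul, map_inv]; exact BraidEq.r1r2_gt j k h
  | r1t2_lt j k h => rw [map_commutatorElement, map_one]; exact BraidEq.r1t2_lt j k h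
  | r1t2_eq j => rw [map_commutatorElement, map_inv]; exact BraidEq.r1t2_eq j
  | r1t2_gt j k h =>
    simp only [map_commutatorElement, map_mul, map_inv]; exact BraidEq.r1t2_gt j k h
  | r1A j => simp only [map_commutatorElement, map_mul, map_inv]; exact BraidEq.r1A j
  | t1r2_lt j k h => rw [map_commutatorElement, map_one]; exact BraidEq.t1r2_lt j k h
  | t1r2_eq j => simp only [map_commutatorElement, map_mul, map_inv]; exact BraidEq.t1r2_eq j
  | t1r2_gt j k h =>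
    simp only [map_commutatorElement, map_mul, map_inv]; exact BraidEq.t1r2_gt j k h
  | t1t2_lt j k h => rw [map_commutatorElement, map_one]; exact BraidEq.t1t2_lt j k h
  | t1t2_eq j => simp only [map_commutatorElement, map_mul, map_inv]; exact BraidEq.t1t2_eq j
  | t1t2_gt j k h =>
    simp only [map_commutatorElement, map_mul, map_inv]; exact BraidEq.t1t2_gt j k h
  | t1A j => simp only [map_commutatorElement, map_mul, map_inv]; exact BraidEq.t1A j

/-- In `P2 b`, all relations hold. -/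
theorem P2_rel {b : ℕ} {G : Type*} [Group G] (φ : P2 b →* G) {u v : FreeGroup (Gen b)}
    (h : BraidEq (fun j => FreeGroup.of (Gen.r1 j)) (fun j => FreeGroup.of (Gen.t1 j))
      (fun j => FreeGroup.of (Gen.r2 j)) (fun j => FreeGroup.of (Gen.t2 j))
      (FreeGroup.of Gen.A) u v) :
    (φ.comp (PresentedGroup.mk (rels b))) u = (φ.comp (PresentedGroup.mk (rels b))) v := by
  rw [MonoidHom.comp_apply, MonoidHom.comp_apply,
    PresentedGroup.mk_eq_mk_of_mul_inv_mem (rels := rels b) ⟨u, v, h, rfl⟩]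

end Pool.Agent.Helper36.Braid
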