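import Mathlib

set_option autoImplicit false

open scoped commutatorElement

namespace Pool.Agent.Helper36.Braid

/-! ### The chain argument -/

/-- Numerical step. -/
def QQ (n N : ℕ) : Prop := N = 2 ^ n ∨ (∃ m, n = m + 1 ∧ N = 3 * 2 ^ m) ∨ 2 ^ (n + 1) ≤ N

theorem QQ_zero {N : ℕ} (h : 1 ≤ N) : QQ 0 N := by
  rcases Nat.lt_or_ge N 2 with h2 | h2
  · left
    have : N = 1 := by omega
    simpa using this
  · right; right; simpa using h2

theorem QQ_succ {n N c : ℕ} (h : QQ n N) (hc : 2 ≤ c) : QQ (n + 1) (c * N) := by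
  rcases Nat.lt_or_ge (c * N) (2 ^ (n + 1 + 1)) with h3 | h3
  swap
  · right; right; exact h3
  rcases h with h | ⟨m, hm, hN⟩ | h
  · subst h
    have h4 : c < 4 := by
      by_contra h5
      have h5 : 4 ≤ c := by omega
      have : 4 * 2 ^ n ≤ c * 2 ^ n := Nat.mul_le_mul_right _ h5
      have h6 : 2 ^ (n + 1 + 1) = 4 * 2 ^ n := by ring
      omega
    have hc' : c = 2 ∨ c = 3 := by omega
    rcases hc' with rfl | rfl
    · left; ring
    · right; left; exact ⟨n, rfl, rfl⟩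
  · subst hm
    subst hN
    have h4 : c < 3 := by
      by_contra h5
      have h5 : 3 ≤ c := by omega
      have : 3 * (3 * 2 ^ m) ≤ c * (3 * 2 ^ m) := Nat.mul_le_mul_right _ h5
      have h6 : 2 ^ (m + 1 + 1 + 1) = 8 * 2 ^ m := by ring
      omega
    have hc' : c = 2 := by omega
    subst hc'
    right; left
    exact ⟨m + 1, rfl, by ring⟩
  · exfalso
    have h5 : 2 * 2 ^ (n + 1) ≤ c * N := Nat.mul_le_mul hc h
    have h6 : 2 ^ (n + 1 + 1) = 2 * 2 ^ (n + 1) := by ring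
    omega

theorem chain2 : ∀ (n : ℕ) (f g : ℕ → ℕ), (∀ i < n, ∃ c ≥ 2, f i = c * g i) →
    (∀ i < n, ∃ c ≥ 2, g i = c * f (i + 1)) → 1 ≤ f n →
    2 ^ (2 * n) * f n ≤ f 0 ∧ QQ (2 * n) (f 0) := by
  intro n
  induction n with
  | zero =>
    intro f g _ _ h
    refine ⟨by simp, QQ_zero h⟩
  | succ n ih =>
    intro f g h1 h2 h3
    obtain ⟨ha, hb⟩ := ih (fun i => f (i + 1)) (fun i => g (i + 1))
      (fun i hi => h1 (i + 1) (by omega)) (fun i hi => h2 (i + 1) (by omega)) h3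
    obtain ⟨c, hc, hc'⟩ := h1 0 (by omega)
    obtain ⟨d, hd, hd'⟩ := h2 0 (by omega)
    simp only [zero_add] at hd' ha hb
    constructor
    · have e1 : 2 ^ (2 * (n + 1)) * f (n + 1) = 2 * (2 * (2 ^ (2 * n) * f (n + 1))) := by ring
      rw [e1, hc', hd']
      exact Nat.mul_le_mul hc (Nat.mul_le_mul hd ha)
    · rw [hc', hd']
      have e2 : 2 * (n + 1) = 2 * n + 1 + 1 := by ring
      rw [e2]
      exact QQ_succ (QQ_succ hb hd) hc

/-- A strict inclusion of subgroups of a finite group. -/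
theorem card_of_lt {G : Type*} [Group G] [Finite G] {H K : Subgroup G} (h : H < K) :
    ∃ c ≥ 2, Nat.card K = c * Nat.card H := by
  have hle : H ≤ K := h.le
  obtain ⟨c, hc⟩ := Subgroup.card_dvd_of_le hle
  have hKpos : 0 < Nat.card K := Nat.card_pos
  have hHpos : 0 < Nat.card H := Nat.card_pos
  refine ⟨c, ?_, by rw [hc, mul_comm]⟩
  by_contra hlt
  have hc1 : c = 0 ∨ c = 1 := by omega
  rcases hc1 with rfl | rfl
  · simp at hc; omega
  · have : H = K := Subgroup.eq_of_le_of_card_ge hle (by rw [hc]; simp)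
    exact absurd this h.ne

variable {G : Type*} [Group G]

/-- The subgroup of elements of `K` commuting with `u k, v k` for `k < m`. -/
def CC {b : ℕ} (K : Subgroup G) (u v : Fin b → G) (m : ℕ) : Subgroup G :=
  K ⊓ Subgroup.centralizer {x | ∃ k : Fin b, (k : ℕ) < m ∧ (x = u k ∨ x = v k)}

theorem mem_CC {b : ℕ} {K : Subgroup G} {u v : Fin b → G} {m : ℕ} {g : G} :
    g ∈ CC K u v m ↔ g ∈ K ∧ ∀ k : Fin b, (k : ℕ) < m → Commute (u k) g ∧ Commute (v k) g := by
  unfold CC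
  rw [Subgroup.mem_inf, Subgroup.mem_centralizer_iff]
  constructor
  · rintro ⟨h1, h2⟩
    refine ⟨h1, fun k hk => ⟨h2 _ ⟨k, hk, Or.inl rfl⟩, h2 _ ⟨k, hk, Or.inr rfl⟩⟩⟩
  · rintro ⟨h1, h2⟩
    refine ⟨h1, ?_⟩
    rintro x ⟨k, hk, rfl | rfl⟩
    · exact (h2 k hk).1
    · exact (h2 k hk).2

theorem chain_bound [Finite G] {b : ℕ} (K : Subgroup G) (u v p q : Fin b → G)
    (hp : ∀ m, p m ∈ K) (hq : ∀ m, q m ∈ K)
    (h1 : ∀ k m : Fin b, k < m → Commute (u k) (p m))
    (h2 : ∀ k m : Fin b, k < m → Commute (v k) (p m))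
    (h3 : ∀ k m : Fin b, k < m → Commute (u k) (q m))
    (h4 : ∀ k m : Fin b, k < m → Commute (v k) (q m))
    (h5 : ∀ m, ¬ Commute (u m) (p m))
    (h6 : ∀ m, Commute (u m) (q m))
    (h7 : ∀ m, ¬ Commute (v m) (q m)) :
    2 ^ (2 * b) * Nat.card (CC K u v b) ≤ Nat.card K ∧ QQ (2 * b) (Nat.card K) := by
  have hC0 : CC K u v 0 = K := by
    ext g
    rw [mem_CC]
    constructor
    · exact fun h => h.1
    · exact fun h => ⟨h, fun k hk => absurd hk (by omega)⟩
  have key := chain2 b (fun m => Nat.card (CC K u v m))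
    (fun m => if h : m < b then
      Nat.card (CC K u v m ⊓ Subgroup.centralizer {u ⟨m, h⟩} : Subgroup G) else 0)
    (by
      intro m hm
      simp only [hm, dif_pos]
      apply card_of_lt
      refine lt_of_le_of_ne inf_le_left ?_
      intro heq
      have hpm : p ⟨m, hm⟩ ∈ CC K u v m := by
        rw [mem_CC]
        refine ⟨hp _, fun k hk => ⟨h1 _ _ (by exact hk), h2 _ _ (by exact hk)⟩⟩
      rw [← heq, Subgroup.mem_inf, Subgroup.mem_centralizer_iff] at hpm
      exact h5 ⟨m, hm⟩ (hpm.2 _ rfl))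
    (by
      intro m hm
      simp only [hm, dif_pos]
      apply card_of_lt
      refine lt_of_le_of_ne ?_ ?_
      · intro g hg
        rw [mem_CC] at hg
        rw [Subgroup.mem_inf, mem_CC, Subgroup.mem_centralizer_iff]
        refine ⟨⟨hg.1, fun k hk => hg.2 k (by omega)⟩, ?_⟩
        rintro x rfl
        exact (hg.2 ⟨m, hm⟩ (by simp)).1
      · intro heq
        have hqm : q ⟨m, hm⟩ ∈ (CC K u v m ⊓ Subgroup.centralizer {u ⟨m, hm⟩} : Subgroup G) := by
          rw [Subgroup.mem_inf, mem_CC, Subgroup.mem_centralizer_iff]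
          refine ⟨⟨hq _, fun k hk => ⟨h3 _ _ (by exact hk), h4 _ _ (by exact hk)⟩⟩, ?_⟩
          rintro x rfl
          exact h6 _
        rw [← heq, mem_CC] at hqm
        exact h7 ⟨m, hm⟩ (hqm.2 ⟨m, hm⟩ (by simp)).2)
    Nat.card_pos
  simp only [hC0] at key
  exact key

end Pool.Agent.Helper36.Braid
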