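import Mathlib
import Pool.Agent.Helper36.Braid.Lower

set_option autoImplicit false

open scoped commutatorElement

namespace Pool.Agent.Helper36.Braid

/-- The consequences of the braid relations used for the lower bound. -/
structure DD {b : ℕ} {G : Type*} [Group G] (r1 t1 r2 t2 : Fin b → G) (z : G) : Prop where
  rr : ∀ j k, j < k → ⁅r1 j, r2 k⁆ = 1
  rt : ∀ j k, j < k → ⁅r1 j, t2 k⁆ = 1
  tr : ∀ j k, j < k → ⁅t1 j, r2 k⁆ = 1
  tt : ∀ j k, j < k → ⁅t1 j, t2 k⁆ = 1
  rrj : ∀ j, ⁅r1 j, r2 j⁆ = 1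
  rtj : ∀ j, ⁅r1 j, t2 j⁆ = z⁻¹
  trj : ∀ j, ⁅t1 j, r2 j⁆ = (t2 j)⁻¹ * z * t2 j
  c1 : ∀ j k, ⁅r1 j, r2 k⁆ ∈ Subgroup.normalClosure {z}
  c2 : ∀ j k, ⁅r1 j, t2 k⁆ ∈ Subgroup.normalClosure {z}
  c3 : ∀ j k, ⁅t1 j, r2 k⁆ ∈ Subgroup.normalClosure {z}
  c4 : ∀ j k, ⁅t1 j, t2 k⁆ ∈ Subgroup.normalClosure {z}
  ne : z ≠ 1

section
variable {b : ℕ} {G : Type*} [Group G] {r1 t1 r2 t2 : Fin b → G} {z : G}

theorem DD.quot (h : DD r1 t1 r2 t2 z) (N : Subgroup G) [N.Normal] (hz : z ∉ N) :
    DD (G := G ⧸ N) (fun j => (r1 j : G ⧸ N)) (fun j => (t1 j : G ⧸ N))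
      (fun j => (r2 j : G ⧸ N)) (fun j => (t2 j : G ⧸ N)) (z : G ⧸ N) := by
  set f : G →* G ⧸ N := QuotientGroup.mk' N with hf
  have hmem : ∀ x ∈ Subgroup.normalClosure {z}, f x ∈ Subgroup.normalClosure {f z} := by
    intro x hx
    have h1 : Subgroup.map f (Subgroup.normalClosure {z}) = Subgroup.normalClosure (f '' {z}) :=
      Subgroup.map_normalClosure _ f (QuotientGroup.mk'_surjective N)
    rw [Set.image_singleton] at h1
    rw [← h1]
    exact Subgroup.mem_map_of_mem f hx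
  refine ⟨?_, ?_, ?_, ?_, ?_, ?_, ?_, ?_, ?_, ?_, ?_, ?_⟩
  · intro j k hjk
    have := congrArg f (h.rr j k hjk)
    rwa [map_commutatorElement, map_one] at this
  · intro j k hjk
    have := congrArg f (h.rt j k hjk)
    rwa [map_commutatorElement, map_one] at this
  · intro j k hjk
    have := congrArg f (h.tr j k hjk)
    rwa [map_commutatorElement, map_one] at this
  · intro j k hjk
    have := congrArg f (h.tt j k hjk)
    rwa [map_commutatorElement, map_one] at this
  · intro j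
    have := congrArg f (h.rrj j)
    rwa [map_commutatorElement, map_one] at this
  · intro j
    have := congrArg f (h.rtj j)
    rwa [map_commutatorElement, map_inv] at this
  · intro j
    have := congrArg f (h.trj j)
    rwa [map_commutatorElement, map_mul, map_mul, map_inv] at this
  · intro j k
    have := hmem _ (h.c1 j k)
    rwa [map_commutatorElement] at this
  · intro j k
    have := hmem _ (h.c2 j k)
    rwa [map_commutatorElement] at this
  · intro j k
    have := hmem _ (h.c3 j k)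
    rwa [map_commutatorElement] at this
  · intro j k
    have := hmem _ (h.c4 j k)
    rwa [map_commutatorElement] at this
  · intro h1
    exact hz ((QuotientGroup.eq_one_iff z).1 h1)

theorem comm_iff {x y : G} : ⁅x, y⁆ = 1 ↔ Commute y x := by
  rw [commutatorElement_eq_one_iff_commute]
  exact ⟨fun h => h.symm, fun h => h.symm⟩

/-- The bound for a subgroup containing the first family. -/
theorem DD.bound1 [Finite G] (h : DD r1 t1 r2 t2 z) (K : Subgroup G)
    (hr : ∀ j, r1 j ∈ K) (ht : ∀ j, t1 j ∈ K) :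
    2 ^ (2 * b) * Nat.card (CC K (fun k => r2 (Fin.rev k)) (fun k => t2 (Fin.rev k)) b) ≤
      Nat.card K ∧ QQ (2 * b) (Nat.card K) := by
  refine chain_bound K (fun k => r2 (Fin.rev k)) (fun k => t2 (Fin.rev k))
    (fun k => t1 (Fin.rev k)) (fun k => r1 (Fin.rev k)) (fun m => ht _) (fun m => hr _)
    ?_ ?_ ?_ ?_ ?_ ?_ ?_
  · intro k m hkm
    exact comm_iff.1 (h.tr _ _ (Fin.rev_lt_rev.2 hkm))
  · intro k m hkm
    exact comm_iff.1 (h.tt _ _ (Fin.rev_lt_rev.2 hkm))
  · intro k m hkm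
    exact comm_iff.1 (h.rr _ _ (Fin.rev_lt_rev.2 hkm))
  · intro k m hkm
    exact comm_iff.1 (h.rt _ _ (Fin.rev_lt_rev.2 hkm))
  · intro m hm
    rw [← comm_iff, h.trj] at hm
    apply h.ne
    have : z = t2 (Fin.rev m) * ((t2 (Fin.rev m))⁻¹ * z * t2 (Fin.rev m)) * (t2 (Fin.rev m))⁻¹ := by
      group
    rw [this, hm]; group
  · intro m
    exact comm_iff.1 (h.rrj _)
  · intro m hm
    rw [← comm_iff, h.rtj] at hm
    exact h.ne (inv_eq_one.1 hm)

/-- The bound for a subgroup containing the second family. -/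
theorem DD.bound2 [Finite G] (h : DD r1 t1 r2 t2 z) (K : Subgroup G)
    (hr : ∀ j, r2 j ∈ K) (ht : ∀ j, t2 j ∈ K) :
    2 ^ (2 * b) * Nat.card (CC K r1 t1 b) ≤ Nat.card K ∧ QQ (2 * b) (Nat.card K) := by
  refine chain_bound K r1 t1 t2 r2 (fun m => ht _) (fun m => hr _) ?_ ?_ ?_ ?_ ?_ ?_ ?_
  · intro k m hkm
    exact commutatorElement_eq_one_iff_commute.1 (h.rt _ _ hkm)
  · intro k m hkm
    exact commutatorElement_eq_one_iff_commute.1 (h.tt _ _ hkm)
  · intro k m hkm
    exact commutatorElement_eq_one_iff_commute.1 (h.rr _ _ hkm)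
  · intro k m hkm
    exact commutatorElement_eq_one_iff_commute.1 (h.tr _ _ hkm)
  · intro m hm
    rw [← commutatorElement_eq_one_iff_commute, h.rtj] at hm
    exact h.ne (inv_eq_one.1 hm)
  · intro m
    exact commutatorElement_eq_one_iff_commute.1 (h.rrj _)
  · intro m hm
    rw [← commutatorElement_eq_one_iff_commute, h.trj] at hm
    apply h.ne
    have : z = t2 m * ((t2 m)⁻¹ * z * t2 m) * (t2 m)⁻¹ := by
      group
    rw [this, hm]; group

/-- A subgroup of more than half the order is everything. -/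
theorem eq_top_of_lt [Finite G] {K : Subgroup G} {n : ℕ} (h1 : n ≤ Nat.card K)
    (h2 : Nat.card G < 2 * n) : K = ⊤ := by
  by_contra hne
  obtain ⟨c, hc, hc'⟩ := card_of_lt (lt_top_iff_ne_top.2 hne)
  rw [Subgroup.card_top] at hc'
  have : 2 * n ≤ c * Nat.card K := Nat.mul_le_mul hc h1
  omega

/-- In a small group, commutators lie in the normal closure of `z`. -/
theorem DD.comm_le [Finite G] (h : DD r1 t1 r2 t2 z) (hG : Nat.card G < 2 ^ (2 * b + 1)) :
    ∀ x y : G, ⁅x, y⁆ ∈ Subgroup.normalClosure {z} := by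
  set M := Subgroup.normalClosure {z} with hM
  have hpow : 2 ^ (2 * b + 1) = 2 * 2 ^ (2 * b) := by ring
  rw [hpow] at hG
  have hK1 : Subgroup.closure (Set.range r1 ∪ Set.range t1) = ⊤ := by
    have hb := (h.bound1 (Subgroup.closure (Set.range r1 ∪ Set.range t1))
      (fun j => Subgroup.subset_closure (Or.inl ⟨j, rfl⟩))
      (fun j => Subgroup.subset_closure (Or.inr ⟨j, rfl⟩))).1
    refine eq_top_of_lt (n := 2 ^ (2 * b)) (le_trans ?_ hb) hG
    exact Nat.le_mul_of_pos_right _ Nat.card_pos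
  have hK2 : Subgroup.closure (Set.range r2 ∪ Set.range t2) = ⊤ := by
    have hb := (h.bound2 (Subgroup.closure (Set.range r2 ∪ Set.range t2))
      (fun j => Subgroup.subset_closure (Or.inl ⟨j, rfl⟩))
      (fun j => Subgroup.subset_closure (Or.inr ⟨j, rfl⟩))).1
    refine eq_top_of_lt (n := 2 ^ (2 * b)) (le_trans ?_ hb) hG
    exact Nat.le_mul_of_pos_right _ Nat.card_pos
  set f : G →* G ⧸ M := QuotientGroup.mk' M with hf
  have hfc : ∀ x y : G, ⁅x, y⁆ ∈ M ↔ Commute (f x) (f y) := by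
    intro x y
    rw [← commutatorElement_eq_one_iff_commute, ← map_commutatorElement]
    exact (QuotientGroup.eq_one_iff _).symm
  -- every element of the second family is central in the quotient
  have step1 : ∀ x : G, ∀ y ∈ Set.range r2 ∪ Set.range t2, Commute (f x) (f y) := by
    intro x y hy
    have hle : Subgroup.closure (Set.range r1 ∪ Set.range t1) ≤
        (Subgroup.centralizer {f y}).comap f := by
      rw [Subgroup.closure_le]
      rintro w (⟨j, rfl⟩ | ⟨j, rfl⟩)
      · rw [SetLike.mem_coe, Subgroup.mem_comap, Subgroup.mem_centralizer_iff]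
        rintro _ rfl
        rcases hy with ⟨k, rfl⟩ | ⟨k, rfl⟩
        · exact ((hfc _ _).1 (h.c1 j k)).symm
        · exact ((hfc _ _).1 (h.c2 j k)).symm
      · rw [SetLike.mem_coe, Subgroup.mem_comap, Subgroup.mem_centralizer_iff]
        rintro _ rfl
        rcases hy with ⟨k, rfl⟩ | ⟨k, rfl⟩
        · exact ((hfc _ _).1 (h.c3 j k)).symm
        · exact ((hfc _ _).1 (h.c4 j k)).symm
    rw [hK1] at hle
    have hx := hle (Subgroup.mem_top x)
    rw [Subgroup.mem_comap, Subgroup.mem_centralizer_iff] at hx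
    exact (hx _ rfl).symm
  intro x y
  rw [hfc]
  have hle : Subgroup.closure (Set.range r2 ∪ Set.range t2) ≤
      (Subgroup.centralizer {f x}).comap f := by
    rw [Subgroup.closure_le]
    intro w hw
    rw [SetLike.mem_coe, Subgroup.mem_comap, Subgroup.mem_centralizer_iff]
    rintro _ rfl
    exact step1 x w hw
  rw [hK2] at hle
  have hy := hle (Subgroup.mem_top y)
  rw [Subgroup.mem_comap, Subgroup.mem_centralizer_iff] at hy
  exact hy _ rfl

/-- In a small group, the centre is trivial. -/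
theorem DD.center_bot [Finite G] (h : DD r1 t1 r2 t2 z) (hG : Nat.card G < 2 ^ (2 * b + 1)) :
    Subgroup.center G = ⊥ := by
  have hb := (h.bound1 ⊤ (fun j => Subgroup.mem_top _) (fun j => Subgroup.mem_top _)).1
  rw [Subgroup.card_top] at hb
  have hle : Subgroup.center G ≤
      CC ⊤ (fun k => r2 (Fin.rev k)) (fun k => t2 (Fin.rev k)) b := by
    intro g hg
    rw [mem_CC]
    rw [Subgroup.mem_center_iff] at hg
    exact ⟨Subgroup.mem_top _, fun k _ => ⟨hg _, hg _⟩⟩
  have hcard := Subgroup.card_le_of_le hle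
  apply Subgroup.eq_bot_of_card_le
  by_contra hlt
  have h2 : 2 ≤ Nat.card (CC ⊤ (fun k => r2 (Fin.rev k)) (fun k => t2 (Fin.rev k)) b) := by
    omega
  have h3 : 2 ^ (2 * b) * 2 ≤ 2 ^ (2 * b) *
      Nat.card (CC ⊤ (fun k => r2 (Fin.rev k)) (fun k => t2 (Fin.rev k)) b) :=
    Nat.mul_le_mul_left _ h2
  have hpow : 2 ^ (2 * b + 1) = 2 ^ (2 * b) * 2 := by ring
  omega

/-- In a small group, `z` lies in every nontrivial normal subgroup. -/
theorem DD.mem_normal [Finite G] (h : DD r1 t1 r2 t2 z) (hG : Nat.card G < 2 ^ (2 * b + 1))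
    (N : Subgroup G) [N.Normal] (hN : N ≠ ⊥) : z ∈ N := by
  by_contra hz
  have hb := ((h.quot N hz).bound1 ⊤ (fun j => Subgroup.mem_top _)
    (fun j => Subgroup.mem_top _)).1
  rw [Subgroup.card_top] at hb
  have h1 : 2 ^ (2 * b) ≤ Nat.card (G ⧸ N) :=
    le_trans (Nat.le_mul_of_pos_right _ Nat.card_pos) hb
  have h2 : Nat.card G = Nat.card (G ⧸ N) * Nat.card N := Subgroup.card_eq_card_quotient_mul_card_subgroup N
  have h3 : 2 ≤ Nat.card N := by
    by_contra hlt
    exact hN (Subgroup.eq_bot_of_card_le _ (by omega))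
  have h4 : 2 ^ (2 * b) * 2 ≤ Nat.card (G ⧸ N) * Nat.card N := Nat.mul_le_mul h1 h3
  have hpow : 2 ^ (2 * b + 1) = 2 ^ (2 * b) * 2 := by ring
  omega

end

end Pool.Agent.Helper36.Braid
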