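import Mathlib
import Pool.Agent.Helper36.Braid.Lower2

set_option autoImplicit false

open scoped commutatorElement

namespace Pool.Agent.Helper36.Braid

section
variable {G : Type*} [Group G]

/-- A finite group of order `3 * 2^m`, `m` odd, `m ≥ 3`, with trivial centre, containing an element
`z` which lies in every nontrivial normal subgroup, and such that all commutators lie in the normal
closure of `z`, does not exist. -/
theorem no_group [Finite G] {m : ℕ} (hm : 3 ≤ m) (hodd : Odd m) (hcard : Nat.card G = 3 * 2 ^ m)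
    (z : G) (hcen : Subgroup.center G = ⊥)
    (hmem : ∀ (N : Subgroup G), N.Normal → N ≠ ⊥ → z ∈ N)
    (hcomm : ∀ x y : G, ⁅x, y⁆ ∈ Subgroup.normalClosure {z}) (hz : z ≠ 1) : False := by
  classical
  haveI : Fact (Nat.Prime 2) := ⟨Nat.prime_two⟩
  haveI : Fact (Nat.Prime 3) := ⟨Nat.prime_three⟩
  -- a Sylow 2-subgroup
  obtain ⟨P, hP⟩ := Sylow.exists_subgroup_card_pow_prime (G := G) 2 (n := m)
    (by rw [hcard]; exact Dvd.intro_left _ rfl)
  have hpos : 0 < 2 ^ m := by positivity
  have hidx : P.index = 3 := by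
    have := P.card_mul_index
    rw [hP, hcard, mul_comm 3] at this
    exact Nat.eq_of_mul_eq_mul_left hpos this
  -- the normal core of P
  have hcore : P.normalCore ≠ ⊥ := by
    intro hbot
    have hker := P.normalCore_eq_ker
    rw [hbot] at hker
    have hidx2 := Subgroup.index_ker (MulAction.toPermHom G (G ⧸ P))
    rw [← hker, Subgroup.index_bot, hcard] at hidx2
    have hle : Nat.card (MulAction.toPermHom G (G ⧸ P)).range ≤
        Nat.card (Equiv.Perm (G ⧸ P)) := Subgroup.card_le_card_group _
    have hperm : Nat.card (Equiv.Perm (G ⧸ P)) = 6 := by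
      rw [Nat.card_perm]
      have : Nat.card (G ⧸ P) = 3 := hidx
      rw [this]; rfl
    have : 2 ^ 3 ≤ 2 ^ m := Nat.pow_le_pow_right (by norm_num) hm
    omega
  have hzcore : z ∈ P.normalCore := hmem _ inferInstance hcore
  have hMcore : Subgroup.normalClosure {z} ≤ P.normalCore := by
    apply Subgroup.normalClosure_le_normal
    simpa using hzcore
  have hMP : Subgroup.normalClosure {z} ≤ P := hMcore.trans P.normalCore_le
  have hPn : P.Normal := by
    constructor
    intro x hx g
    have h1 : g * x * g⁻¹ = ⁅g, x⁆ * x := by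
      rw [commutatorElement_def]; group
    rw [h1]
    exact P.mul_mem (hMP (hcomm g x)) hx
  -- z centralizes P
  have hPp : IsPGroup 2 P := IsPGroup.of_card hP
  have hPnt : Nontrivial P := by
    rw [← Finite.one_lt_card_iff_nontrivial, hP]
    exact Nat.one_lt_two_pow (by omega)
  have hZ : P ⊓ Subgroup.centralizer (P : Set G) ≠ ⊥ := by
    haveI := hPp.center_nontrivial
    obtain ⟨⟨x, hx⟩, hx1⟩ := exists_ne (1 : Subgroup.center P)
    intro hbot
    apply hx1
    have hxm : (x : G) ∈ P ⊓ Subgroup.centralizer (P : Set G) := by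
      refine Subgroup.mem_inf.2 ⟨x.2, ?_⟩
      rw [Subgroup.mem_centralizer_iff]
      intro y hy
      have := (Subgroup.mem_center_iff.1 hx) ⟨y, hy⟩
      exact congrArg Subtype.val this
    rw [hbot, Subgroup.mem_bot] at hxm
    apply Subtype.ext
    apply Subtype.ext
    exact hxm
  have hzZ := hmem _ inferInstance hZ
  have hMZ : Subgroup.normalClosure {z} ≤ P ⊓ Subgroup.centralizer (P : Set G) := by
    apply Subgroup.normalClosure_le_normal
    simpa using hzZ
  -- an element of order three
  obtain ⟨g, hg⟩ := exists_prime_orderOf_dvd_card' (G := G) 3 (by rw [hcard]; exact Dvd.intro _ rfl)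
  have hgP : g ∉ P := by
    intro hgP
    have h1 : orderOf g ∣ Nat.card P := Subgroup.orderOf_dvd_natCard P hgP
    rw [hg, hP] at h1
    have := Nat.Prime.dvd_of_dvd_pow Nat.prime_three h1
    omega
  -- the centralizer of g in P is normal in G
  have hCn : (P ⊓ Subgroup.centralizer {g}).Normal := by
    constructor
    intro x hx y
    rw [Subgroup.mem_inf, Subgroup.mem_centralizer_iff] at hx ⊢
    refine ⟨hPn.conj_mem x hx.1 y, ?_⟩
    intro w hw
    rw [Set.mem_singleton_iff] at hw
    rw [hw]
    have h1 : g * x = x * g := hx.2 _ rfl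
    have h2 : ⁅y⁻¹, g⁆ ∈ P ⊓ Subgroup.centralizer (P : Set G) := hMZ (hcomm _ _)
    have h3 := (Subgroup.mem_centralizer_iff.1 h2.2) x hx.1
    have h4 : y⁻¹ * g * y = ⁅y⁻¹, g⁆ * g := by rw [commutatorElement_def]; group
    have h5 : (y⁻¹ * g * y) * x = x * (y⁻¹ * g * y) := by
      rw [h4, mul_assoc, h1, ← mul_assoc, ← h3, mul_assoc]
    calc g * (y * x * y⁻¹) = y * ((y⁻¹ * g * y) * x) * y⁻¹ := by group
      _ = y * (x * (y⁻¹ * g * y)) * y⁻¹ := by rw [h5]
      _ = y * x * y⁻¹ * g := by group
  have hCbot : P ⊓ Subgroup.centralizer {g} = ⊥ := by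
    by_contra hne
    have hzc := hmem _ hCn hne
    -- centralizer of z contains P and g
    have hPle : P ≤ Subgroup.centralizer {z} := by
      intro x hx
      rw [Subgroup.mem_centralizer_iff]
      intro w hw
      rw [Set.mem_singleton_iff] at hw
      rw [hw]
      exact ((Subgroup.mem_centralizer_iff.1 hzZ.2) x hx).symm
    have hgc : g ∈ Subgroup.centralizer {z} := by
      rw [Subgroup.mem_centralizer_iff]
      intro w hw
      rw [Set.mem_singleton_iff] at hw
      rw [hw]
      exact ((Subgroup.mem_centralizer_iff.1 hzc.2) g rfl).symm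
    have hdvd := Subgroup.index_dvd_of_le hPle
    rw [hidx] at hdvd
    rcases (Nat.dvd_prime Nat.prime_three).1 hdvd with h1 | h3
    · rw [Subgroup.index_eq_one] at h1
      have hzcen : z ∈ Subgroup.center G := by
        rw [Subgroup.mem_center_iff]
        intro y
        have hy : y ∈ Subgroup.centralizer {z} := by rw [h1]; exact Subgroup.mem_top y
        exact ((Subgroup.mem_centralizer_iff.1 hy) z rfl).symm
      rw [hcen, Subgroup.mem_bot] at hzcen
      exact hz hzcen
    · have heq : P = Subgroup.centralizer {z} := by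
        apply Subgroup.eq_of_le_of_card_ge hPle
        have e1 := P.card_mul_index
        have e2 := (Subgroup.centralizer {z}).card_mul_index
        rw [hidx] at e1
        rw [h3] at e2
        omega
      rw [← heq] at hgc
      exact hgP hgc
  -- conjugation by g on P
  let f : Function.End P := fun x => ⟨g * x * g⁻¹, hPn.conj_mem x x.2 g⟩
  have hfpow : ∀ (n : ℕ) (x : P), (((f ^ n) x : P) : G) = g ^ n * x * (g ^ n)⁻¹ := by
    intro n
    induction n with
    | zero =>
      intro x
      rw [pow_zero, pow_zero]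
      change (x : G) = 1 * x * 1⁻¹
      simp
    | succ n ih =>
      intro x
      have : (f ^ (n + 1)) x = (f ^ n) (f x) := by
        rw [pow_succ]; rfl
      rw [this, ih]
      change g ^ n * (g * x * g⁻¹) * (g ^ n)⁻¹ = _
      rw [pow_succ]; group
  have hf3 : f ^ 3 ^ 1 = 1 := by
    funext x
    apply Subtype.ext
    rw [hfpow]
    have h33 : g ^ 3 ^ 1 = 1 := by rw [pow_one, ← hg]; exact pow_orderOf_eq_one g
    rw [h33]
    change 1 * (x : G) * 1⁻¹ = (x : G)
    simp
  haveI : Fintype P := Fintype.ofFinite P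
  have hmod := Equiv.Perm.card_fixedPoints_modEq (p := 3) (n := 1) hf3
  have hfix : Nat.card f.fixedPoints = 1 := by
    rw [Nat.card_eq_one_iff_unique]
    have hone : (1 : P) ∈ f.fixedPoints := by
      change f 1 = 1
      apply Subtype.ext
      change g * ((1 : P) : G) * g⁻¹ = ((1 : P) : G)
      simp
    refine ⟨⟨?_⟩, ⟨⟨1, hone⟩⟩⟩
    have key : ∀ a : f.fixedPoints, (a : P) = 1 := by
      rintro ⟨x, hx⟩
      have hx' : f x = x := hx
      have hx2 : g * (x : G) * g⁻¹ = x := congrArg Subtype.val hx'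
      have hxm : (x : G) ∈ P ⊓ Subgroup.centralizer {g} := by
        refine Subgroup.mem_inf.2 ⟨x.2, ?_⟩
        rw [Subgroup.mem_centralizer_iff]
        intro w hw
        rw [Set.mem_singleton_iff] at hw
        rw [hw]
        exact mul_inv_eq_iff_eq_mul.1 hx2
      rw [hCbot, Subgroup.mem_bot] at hxm
      apply Subtype.ext
      exact hxm
    intro a c
    exact Subtype.ext ((key a).trans (key c).symm)
  rw [← Nat.card_eq_fintype_card, ← Nat.card_eq_fintype_card, hfix, hP] at hmod

  obtain ⟨k, rfl⟩ := hodd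
  have h2 : 2 ^ (2 * k + 1) = 2 * 4 ^ k := by
    rw [pow_succ, pow_mul]; ring
  rw [h2] at hmod
  have h4 : 4 ^ k ≡ 1 [MOD 3] := by
    have : (4 : ℕ) ≡ 1 [MOD 3] := by decide
    simpa using this.pow k
  have h5 : 2 * 4 ^ k ≡ 2 * 1 [MOD 3] := h4.mul_left 2
  have h6 : 1 ≡ 2 [MOD 3] := hmod.symm.trans h5
  exact absurd h6 (by decide)

end

section
variable {b : ℕ} {G : Type*} [Group G] {r1 t1 r2 t2 : Fin b → G} {z : G}

/-- The lower bound. -/
theorem DD.lower [Finite G] (h : DD r1 t1 r2 t2 z) (hb : 2 ≤ b) :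
    2 ^ (2 * b + 1) ≤ Nat.card G := by
  by_contra hlt
  have hlt : Nat.card G < 2 ^ (2 * b + 1) := by omega
  haveI : Nontrivial G := ⟨z, 1, h.ne⟩
  have hcen := h.center_bot hlt
  have hQ := (h.bound1 ⊤ (fun j => Subgroup.mem_top _) (fun j => Subgroup.mem_top _)).2
  rw [Subgroup.card_top] at hQ
  rcases hQ with hQ | ⟨m, hm, hQ⟩ | hQ
  · haveI : Fact (Nat.Prime 2) := ⟨Nat.prime_two⟩
    have hp : IsPGroup 2 G := IsPGroup.of_card hQ
    have hc := hp.bot_lt_center
    rw [hcen] at hc
    exact lt_irrefl _ hc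
  · have hodd : Odd m := by
      rcases Nat.even_or_odd m with he | ho
      · obtain ⟨k, hk⟩ := he
        omega
      · exact ho
    refine no_group (m := m) (by omega) hodd hQ z hcen ?_ (h.comm_le hlt) h.ne
    intro N hN hNb
    exact h.mem_normal hlt N hNb
  · omega

end

end Pool.Agent.Helper36.Braid
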