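import Mathlib
import Pool.Agent.Helper36.Braid.Defs

set_option autoImplicit false

open scoped commutatorElement

namespace Pool.Agent.Helper36.Braid

/-- The Heisenberg group of order `2 ^ (2 b + 1)`. -/
@[ext]
structure Heis (b : ℕ) where
  x : Fin b → ZMod 2
  y : Fin b → ZMod 2
  c : ZMod 2

namespace Heis
variable {b : ℕ}

instance : Mul (Heis b) := ⟨fun g h => ⟨g.x + h.x, g.y + h.y, g.c + h.c + g.x ⬝ᵥ h.y⟩⟩
instance : One (Heis b) := ⟨⟨0, 0, 0⟩⟩
instance : Inv (Heis b) := ⟨fun g => ⟨-g.x, -g.y, -g.c + g.x ⬝ᵥ g.y⟩⟩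

@[simp] theorem mul_x (g h : Heis b) : (g * h).x = g.x + h.x := rfl
@[simp] theorem mul_y (g h : Heis b) : (g * h).y = g.y + h.y := rfl
@[simp] theorem mul_c (g h : Heis b) : (g * h).c = g.c + h.c + g.x ⬝ᵥ h.y := rfl
@[simp] theorem one_x : (1 : Heis b).x = 0 := rfl
@[simp] theorem one_y : (1 : Heis b).y = 0 := rfl
@[simp] theorem one_c : (1 : Heis b).c = 0 := rfl
@[simp] theorem inv_x (g : Heis b) : (g⁻¹).x = -g.x := rfl
@[simp] theorem inv_y (g : Heis b) : (g⁻¹).y = -g.y := rfl
@[simp] theorem inv_c (g : Heis b) : (g⁻¹).c = -g.c + g.x ⬝ᵥ g.y := rfl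

instance : Group (Heis b) :=
  Group.ofLeftAxioms
    (by
      intro a b c
      ext i
      · simp [add_assoc]
      · simp [add_assoc]
      · simp only [mul_c, mul_x, mul_y, add_dotProduct, dotProduct_add]; ring)
    (by
      intro a
      ext i
      · simp
      · simp
      · simp)
    (by
      intro a
      ext i
      · simp only [mul_x, inv_x, one_x, neg_add_cancel]
      · simp only [mul_y, inv_y, one_y, neg_add_cancel]
      · simp only [mul_c, inv_c, inv_x, one_c, neg_dotProduct]; ring)

/-- central elements -/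
def cen (s : ZMod 2) : Heis b := ⟨0, 0, s⟩

theorem cen_mul (s : ZMod 2) (g : Heis b) : cen s * g = g * cen s := by
  ext i
  · simp [cen]
  · simp [cen]
  · simp [cen, add_comm]

theorem cen_add (s t : ZMod 2) : (cen (s + t) : Heis b) = cen s * cen t := by
  ext i <;> simp [cen]

theorem cen_zero : (cen 0 : Heis b) = 1 := rfl

theorem cen_inv (s : ZMod 2) : (cen s : Heis b)⁻¹ = cen s := by
  ext i
  · simp [cen]
  · simp [cen]
  · simp [cen]

theorem comm_eq (g h : Heis b) : ⁅g, h⁆ = cen (g.x ⬝ᵥ h.y - h.x ⬝ᵥ g.y) := by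
  rw [commutatorElement_def, mul_inv_eq_iff_eq_mul, mul_inv_eq_iff_eq_mul]
  ext i
  · simp [cen, add_comm]
  · simp [cen, add_comm]
  · simp [cen]; ring

/-- The equivalence with a product. -/
def equivProd : Heis b ≃ (Fin b → ZMod 2) × (Fin b → ZMod 2) × ZMod 2 where
  toFun g := (g.x, g.y, g.c)
  invFun p := ⟨p.1, p.2.1, p.2.2⟩
  left_inv _ := rfl
  right_inv _ := rfl

instance : Finite (Heis b) := Finite.of_equiv _ equivProd.symm

theorem card_heis : Nat.card (Heis b) = 2 ^ (2 * b + 1) := by
  rw [Nat.card_congr equivProd, Nat.card_prod, Nat.card_prod, Nat.card_fun, Nat.card_zmod,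
    Nat.card_eq_fintype_card, Fintype.card_fin]
  ring

end Heis

/-! ### Products with central factors -/

theorem prod_aux1 {α G : Type*} [Group G] (c t : α → G) (hc : ∀ a g, c a * g = g * c a) :
    ∀ l : List α, (l.map fun a => c a * (t a)⁻¹).reverse.prod * (l.map t).prod =
      (l.map c).prod
  | [] => by simp
  | a :: l => by
    have ih := prod_aux1 c t hc l
    simp only [List.map_cons, List.reverse_cons, List.prod_append, List.prod_cons, List.prod_nil,
      mul_one]
    rw [← ih]
    calc (List.map (fun a => c a * (t a)⁻¹) l).reverse.prod * (c a * (t a)⁻¹) *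
          (t a * (List.map t l).prod)
        = (List.map (fun a => c a * (t a)⁻¹) l).reverse.prod * c a * (List.map t l).prod := by
          group
      _ = c a * (List.map (fun a => c a * (t a)⁻¹) l).reverse.prod * (List.map t l).prod := by
          rw [← hc a]
      _ = _ := by rw [mul_assoc]

theorem prod_aux2 {α G : Type*} [Group G] (c t : α → G) (hc : ∀ a g, c a * g = g * c a) :
    ∀ l : List α, (l.map fun a => c a * t a).prod * (l.map fun a => (t a)⁻¹).reverse.prod =
      (l.map c).prod
  | [] => by simp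
  | a :: l => by
    have ih := prod_aux2 c t hc l
    have hcl : ∀ l : List α, ∀ g : G, (l.map c).prod * g = g * (l.map c).prod := by
      intro l
      induction l with
      | nil => intro g; simp
      | cons a l ih => intro g; rw [List.map_cons, List.prod_cons, mul_assoc, ih, ← mul_assoc,
          hc a g, mul_assoc]
    simp only [List.map_cons, List.reverse_cons, List.prod_append, List.prod_cons, List.prod_nil,
      mul_one]
    calc c a * t a * (List.map (fun a => c a * t a) l).prod *
          ((List.map (fun a => (t a)⁻¹) l).reverse.prod * (t a)⁻¹)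
        = c a * t a * ((List.map (fun a => c a * t a) l).prod *
          (List.map (fun a => (t a)⁻¹) l).reverse.prod) * (t a)⁻¹ := by group
      _ = c a * t a * (List.map c l).prod * (t a)⁻¹ := by rw [ih]
      _ = c a * ((List.map c l).prod * t a) * (t a)⁻¹ := by rw [hcl l (t a)]; group
      _ = _ := by group

end Pool.Agent.Helper36.Braid
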