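import Mathlib

set_option autoImplicit false

namespace Pool.Agent.Helper36.Braid

open Matrix in
theorem exists_pq (b : ℕ) (hb : 2 ≤ b) : ∃ p q : Fin b → Fin b → ZMod 2,
    (∀ j k, p j ⬝ᵥ q k = if j = k then 1 else 0) ∧ ∑ j, p j j = 1 ∧ ∑ j, q j j = 1 := by
  rcases Nat.even_or_odd b with he | ho
  · obtain ⟨n, rfl⟩ : ∃ n, b = n + 2 := ⟨b - 2, by omega⟩
    have hn : ((n : ℕ) : ZMod 2) = 0 := by
      have : Even n := by
        rcases he with ⟨r, hr⟩
        exact ⟨r - 1, by omega⟩
      exact (ZMod.natCast_eq_zero_iff_even).2 this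
    let p : Fin (n + 2) → Fin (n + 2) → ZMod 2 :=
      vecCons (vecCons 1 (vecCons 1 0))
        (vecCons (vecCons 1 (vecCons 0 0)) (fun j => vecCons 0 (vecCons 0 (Pi.single j 1))))
    let q : Fin (n + 2) → Fin (n + 2) → ZMod 2 :=
      vecCons (vecCons 0 (vecCons 1 0))
        (vecCons (vecCons 1 (vecCons 1 0)) (fun j => vecCons 0 (vecCons 0 (Pi.single j 1))))
    refine ⟨p, q, ?_, ?_, ?_⟩
    · intro j k
      have h2 : (1 : ZMod 2) + 1 = 0 := by decide
      refine Fin.cases ?_ (fun j => Fin.cases ?_ (fun j => ?_) j) j <;>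
        refine Fin.cases ?_ (fun k => Fin.cases ?_ (fun k => ?_) k) k
      all_goals simp [p, q, h2, Fin.ext_iff, Pi.single_apply]
      all_goals first | rfl | exact if_congr eq_comm rfl rfl
    · rw [Fin.sum_univ_succ, Fin.sum_univ_succ]
      simp [p, hn]
    · rw [Fin.sum_univ_succ, Fin.sum_univ_succ]
      simp [q, hn]
  · refine ⟨fun j => Pi.single j 1, fun j => Pi.single j 1, ?_, ?_, ?_⟩
    · intro j k
      simp [Pi.single_apply, eq_comm]
    · simp only [Pi.single_eq_same, Finset.sum_const, Finset.card_univ, Fintype.card_fin,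
        nsmul_eq_mul, mul_one]
      exact (ZMod.natCast_eq_one_iff_odd).2 ho
    · simp only [Pi.single_eq_same, Finset.sum_const, Finset.card_univ, Fintype.card_fin,
        nsmul_eq_mul, mul_one]
      exact (ZMod.natCast_eq_one_iff_odd).2 ho

end Pool.Agent.Helper36.Braid
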