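import Mathlib
import Pool.Agent.Helper36.Braid.Defs
import Pool.Agent.Helper36.Braid.Lower3
import Pool.Agent.Helper36.Braid.Upper
import Pool.Agent.Helper36.Braid.Vec

set_option autoImplicit false

open scoped commutatorElement

namespace Pool.Agent.Helper36.Braid

open Heis

section
variable {b : ℕ}

theorem prod_cen (l : List (Fin b)) (f : Fin b → ZMod 2) :
    (l.map fun j => (cen (f j) : Heis b)).prod = cen (l.map f).sum := by
  induction l with
  | nil => rfl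
  | cons a l ih => rw [List.map_cons, List.prod_cons, List.map_cons, List.sum_cons, cen_add, ih]

/-- The four families of generators in the Heisenberg group. -/
def hr1 (j : Fin b) : Heis b := ⟨Pi.single j 1, 0, 0⟩
def ht1 (p : Fin b → Fin b → ZMod 2) (j : Fin b) : Heis b := ⟨0, p j, 0⟩
def hr2 (q : Fin b → Fin b → ZMod 2) (j : Fin b) : Heis b := ⟨q j, 0, 0⟩
def ht2 (j : Fin b) : Heis b := ⟨0, Pi.single j 1, 0⟩

theorem braidEq_heis {p q : Fin b → Fin b → ZMod 2}
    (hpq : ∀ j k, p j ⬝ᵥ q k = if j = k then 1 else 0) (hp : ∑ j, p j j = 1)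
    (hq : ∑ j, q j j = 1) {u v : Heis b}
    (h : BraidEq hr1 (ht1 p) (hr2 q) ht2 (cen 1) u v) : u = v := by
  have hc : ∀ g : Heis b, cen 1 * g = g * cen 1 := cen_mul 1
  have hc' : ∀ g : Heis b, (cen 1)⁻¹ * g = g * (cen 1)⁻¹ := fun g => by
    rw [cen_inv]; exact cen_mul 1 g
  have ez : ∀ g : Heis b, ⁅g, cen 1⁆ = 1 := fun g => by
    rw [commutatorElement_eq_one_iff_mul_comm, hc]
  have ez' : ∀ g : Heis b, ⁅(cen 1)⁻¹, g⁆ = 1 := fun g => by
    rw [commutatorElement_eq_one_iff_mul_comm, hc']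
  have e11 : ∀ j k : Fin b, ⁅(hr1 j : Heis b), (hr2 q k : Heis b)⁆ = 1 := by
    intro j k
    rw [comm_eq]
    simp [hr1, hr2, cen_zero]
  have e12 : ∀ j k : Fin b, ⁅(hr1 j : Heis b), (ht2 k : Heis b)⁆ = cen (if j = k then 1 else 0) := by
    intro j k
    rw [comm_eq]
    congr 1
    simp [hr1, ht2, Pi.single_apply, eq_comm]
  have e21 : ∀ j k : Fin b, ⁅(ht1 p j : Heis b), (hr2 q k : Heis b)⁆ = cen (if j = k then 1 else 0) := by
    intro j k
    rw [comm_eq]
    congr 1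
    have := hpq j k
    simp only [ht1, hr2, zero_dotProduct, dotProduct_zero, zero_sub, sub_zero]
    rw [dotProduct_comm, this]
    split_ifs <;> decide
  have e22 : ∀ j k : Fin b, ⁅(ht1 p j : Heis b), (ht2 k : Heis b)⁆ = 1 := by
    intro j k
    rw [comm_eq]
    simp [ht1, ht2, cen_zero]
  cases h with
  | surf1 =>
    have e : ∀ j : Fin b, ⁅(hr1 j : Heis b)⁻¹, (ht1 p j)⁻¹⁆ = cen (p j j) := by
      intro j
      rw [comm_eq]
      congr 1
      simp [hr1, ht1]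
    have h1 := prod_aux1 (fun j : Fin b => (cen (p j j) : Heis b)) (ht1 p)
      (fun j g => cen_mul _ g) (List.finRange b)
    rw [List.ofFn_eq_map, List.ofFn_eq_map]
    simp only [e]
    have h2 : ((List.finRange b).map fun j => p j j).sum = 1 := by
      rw [← List.ofFn_eq_map, List.sum_ofFn]; exact hp
    rw [h1, prod_cen, h2]
  | surf2 =>
    have e : ∀ j : Fin b, ⁅(hr2 q j : Heis b)⁻¹, ht2 j⁆ = cen (q j j) := by
      intro j
      rw [comm_eq]
      congr 1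
      simp [hr2, ht2]
    have h1 := prod_aux2 (fun j : Fin b => (cen (q j j) : Heis b)) ht2
      (fun j g => cen_mul _ g) (List.finRange b)
    rw [List.ofFn_eq_map, List.ofFn_eq_map]
    simp only [e]
    have h2 : ((List.finRange b).map fun j => q j j).sum = 1 := by
      rw [← List.ofFn_eq_map, List.sum_ofFn]; exact hq
    rw [h1, prod_cen, cen_inv, h2]
  | r1r2_lt j k h => exact e11 j k
  | r1r2_eq j => exact e11 j j
  | r1r2_gt j k h =>
    rw [e11]
    have : (cen 1 : Heis b)⁻¹ * hr2 q k * (hr2 q j)⁻¹ * cen 1 = hr2 q k * (hr2 q j)⁻¹ := by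
      rw [mul_assoc, ← hc, ← mul_assoc, mul_assoc (cen 1)⁻¹, ← hc]
      group
    rw [this]; group
  | r1t2_lt j k h => rw [e12, if_neg h.ne]; rfl
  | r1t2_eq j => rw [e12, if_pos rfl, cen_inv]
  | r1t2_gt j k h => rw [e12, if_neg h.ne', ez']; rfl
  | r1A j => rw [ez, ez]
  | t1r2_lt j k h => rw [e21, if_neg h.ne]; rfl
  | t1r2_eq j =>
    rw [e21, if_pos rfl, mul_assoc, hc]; group
  | t1r2_gt j k h => rw [e21, if_neg h.ne', ez]; rfl
  | t1t2_lt j k h => exact e22 j k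
  | t1t2_eq j => rw [e22, ez]
  | t1t2_gt j k h =>
    rw [e22]
    have h1 : (ht2 j : Heis b)⁻¹ * cen 1 * ht2 j * (cen 1)⁻¹ = 1 := by
      rw [← hc]; group
    have h2 : (cen 1 : Heis b) * (ht2 j)⁻¹ * (cen 1)⁻¹ * ht2 j = 1 := by
      rw [hc]; group
    have h3 : (ht2 j : Heis b)⁻¹ * cen 1 * ht2 j * (cen 1)⁻¹ * ht2 k * cen 1 * (ht2 j)⁻¹ *
        (cen 1)⁻¹ * ht2 j * (ht2 k)⁻¹ =
        ((ht2 j : Heis b)⁻¹ * cen 1 * ht2 j * (cen 1)⁻¹) * ht2 k *
        (cen 1 * (ht2 j)⁻¹ * (cen 1)⁻¹ * ht2 j) * (ht2 k)⁻¹ := by group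
    rw [h3, h1, h2]; group
  | t1A j => rw [ez, ez]

/-- The map on generators. -/
def genMap (p q : Fin b → Fin b → ZMod 2) : Gen b → Heis b
  | Gen.r1 j => hr1 j
  | Gen.t1 j => ht1 p j
  | Gen.r2 j => hr2 q j
  | Gen.t2 j => ht2 j
  | Gen.A => cen 1

theorem rels_ok {p q : Fin b → Fin b → ZMod 2}
    (hpq : ∀ j k, p j ⬝ᵥ q k = if j = k then 1 else 0) (hp : ∑ j, p j j = 1)
    (hq : ∑ j, q j j = 1) : ∀ r ∈ rels b, FreeGroup.lift (genMap p q) r = 1 := by
  rintro w ⟨u, v, h, rfl⟩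
  have h1 := h.map (FreeGroup.lift (genMap p q))
  simp only [FreeGroup.lift_apply_of] at h1
  have h2 := braidEq_heis hpq hp hq h1
  rw [map_mul, map_inv, h2, mul_inv_cancel]

theorem mem_closure_x (H : Subgroup (Heis b)) (h : ∀ j, hr1 j ∈ H) (v : Fin b → ZMod 2) :
    (⟨v, 0, 0⟩ : Heis b) ∈ H := by
  rw [← Finset.univ_sum_single v]
  refine Finset.sum_induction (fun j => Pi.single j (v j))
    (fun w : Fin b → ZMod 2 => (⟨w, 0, 0⟩ : Heis b) ∈ H) ?_ ?_ ?_
  · intro a c ha hc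
    have : (⟨a + c, 0, 0⟩ : Heis b) = ⟨a, 0, 0⟩ * ⟨c, 0, 0⟩ := by
      ext i <;> simp
    rw [this]; exact H.mul_mem ha hc
  · exact H.one_mem
  · intro j _
    have h01 : ∀ s : ZMod 2, s = 0 ∨ s = 1 := by decide
    rcases h01 (v j) with h0 | h1
    · rw [h0, Pi.single_zero]; exact H.one_mem
    · rw [h1]; exact h j

theorem mem_closure_y (H : Subgroup (Heis b)) (h : ∀ j, ht2 j ∈ H) (v : Fin b → ZMod 2) :
    (⟨0, v, 0⟩ : Heis b) ∈ H := by
  rw [← Finset.univ_sum_single v]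
  refine Finset.sum_induction (fun j => Pi.single j (v j))
    (fun w : Fin b → ZMod 2 => (⟨0, w, 0⟩ : Heis b) ∈ H) ?_ ?_ ?_
  · intro a c ha hc
    have : (⟨0, a + c, 0⟩ : Heis b) = ⟨0, a, 0⟩ * ⟨0, c, 0⟩ := by
      ext i <;> simp
    rw [this]; exact H.mul_mem ha hc
  · exact H.one_mem
  · intro j _
    have h01 : ∀ s : ZMod 2, s = 0 ∨ s = 1 := by decide
    rcases h01 (v j) with h0 | h1
    · rw [h0, Pi.single_zero]; exact H.one_mem
    · rw [h1]; exact h j

theorem eq_top (H : Subgroup (Heis b)) (h1 : ∀ j, hr1 j ∈ H) (h2 : ∀ j, ht2 j ∈ H)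
    (h3 : cen 1 ∈ H) : H = ⊤ := by
  rw [eq_top_iff]
  rintro ⟨x, y, c⟩ -
  have hcen : ∀ s : ZMod 2, (cen s : Heis b) ∈ H := by
    intro s
    have h01 : ∀ s : ZMod 2, s = 0 ∨ s = 1 := by decide
    rcases h01 s with h0 | h1
    · rw [h0]; exact H.one_mem
    · rw [h1]; exact h3
  have : (⟨x, y, c⟩ : Heis b) = ⟨x, 0, 0⟩ * ⟨0, y, 0⟩ * cen (c - x ⬝ᵥ y) := by
    ext i
    · simp [cen]
    · simp [cen]
    · simp [cen]
  rw [this]
  exact H.mul_mem (H.mul_mem (mem_closure_x H h1 x) (mem_closure_y H h2 y)) (hcen _)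

/-- The Heisenberg group is an admissible quotient. -/
theorem heis_admissible (hb : 2 ≤ b) : IsAdmissibleQuotient b (Heis b) := by
  obtain ⟨p, q, hpq, hp, hq⟩ := exists_pq b hb
  refine ⟨inferInstance, PresentedGroup.toGroup (rels_ok hpq hp hq), ?_, ?_⟩
  · rw [← MonoidHom.range_eq_top]
    apply eq_top
    · intro j
      exact ⟨PresentedGroup.of (Gen.r1 j), PresentedGroup.toGroup.of _⟩
    · intro j
      exact ⟨PresentedGroup.of (Gen.t2 j), PresentedGroup.toGroup.of _⟩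
    · exact ⟨PresentedGroup.of Gen.A, PresentedGroup.toGroup.of _⟩
  · have : PresentedGroup.toGroup (rels_ok hpq hp hq) (A12 b) = cen 1 :=
      PresentedGroup.toGroup.of _
    rw [this]
    have h1 : (cen 1 : Heis b) ≠ 1 := by
      intro h
      have := congrArg Heis.c h
      simp [cen] at this
    have h2 : orderOf (cen 1 : Heis b) ≠ 0 := (orderOf_pos _).ne'
    have h3 : orderOf (cen 1 : Heis b) ≠ 1 := fun h => h1 (orderOf_eq_one_iff.1 h)
    omega

end

section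
variable {b : ℕ} {G : Type*} [Group G]

/-- An admissible quotient satisfies the relations used in the lower bound. -/
theorem dd_of_hom (φ : P2 b →* G) (hne : φ (A12 b) ≠ 1) :
    DD (fun j => φ (PresentedGroup.of (Gen.r1 j))) (fun j => φ (PresentedGroup.of (Gen.t1 j)))
      (fun j => φ (PresentedGroup.of (Gen.r2 j))) (fun j => φ (PresentedGroup.of (Gen.t2 j)))
      (φ (A12 b)) := by
  set ψ : FreeGroup (Gen b) →* G := φ.comp (PresentedGroup.mk (rels b)) with hψ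
  have hrel := fun {u v : FreeGroup (Gen b)} => P2_rel (b := b) φ (u := u) (v := v)
  have key : ∀ x : Gen b, φ (PresentedGroup.of x) = ψ (FreeGroup.of x) := fun x => rfl
  have keyA : φ (A12 b) = ψ (FreeGroup.of Gen.A) := rfl
  simp only [key, keyA] at hne ⊢
  set z := ψ (FreeGroup.of Gen.A) with hz
  set M := Subgroup.normalClosure {z} with hM
  have hzM : z ∈ M := Subgroup.subset_normalClosure rfl
  have hMn : M.Normal := Subgroup.normalClosure_normal
  have hcl : ∀ g : G, ⁅g, z⁆ ∈ M := by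
    intro g
    rw [commutatorElement_def]
    exact M.mul_mem (hMn.conj_mem z hzM g) (M.inv_mem hzM)
  have hcl' : ∀ g : G, ⁅z⁻¹, g⁆ ∈ M := by
    intro g
    have : ⁅z⁻¹, g⁆ = z⁻¹ * (g * z * g⁻¹) := by rw [commutatorElement_def]; group
    rw [this]
    exact M.mul_mem (M.inv_mem hzM) (hMn.conj_mem z hzM g)
  have f1 : ∀ j k : Fin b, j < k → ⁅ψ (FreeGroup.of (Gen.r1 j)), ψ (FreeGroup.of (Gen.r2 k))⁆ = 1 := by
    intro j k h
    have := hrel (BraidEq.r1r2_lt j k h)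
    rwa [map_commutatorElement, map_one] at this
  have f2 : ∀ j : Fin b, ⁅ψ (FreeGroup.of (Gen.r1 j)), ψ (FreeGroup.of (Gen.r2 j))⁆ = 1 := by
    intro j
    have := hrel (BraidEq.r1r2_eq j)
    rwa [map_commutatorElement, map_one] at this
  have f3 := fun (j k : Fin b) (h : k < j) => hrel (BraidEq.r1r2_gt j k h)
  have f4 : ∀ j k : Fin b, j < k → ⁅ψ (FreeGroup.of (Gen.r1 j)), ψ (FreeGroup.of (Gen.t2 k))⁆ = 1 := by
    intro j k h
    have := hrel (BraidEq.r1t2_lt j k h)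
    rwa [map_commutatorElement, map_one] at this
  have f5 : ∀ j : Fin b, ⁅ψ (FreeGroup.of (Gen.r1 j)), ψ (FreeGroup.of (Gen.t2 j))⁆ = z⁻¹ := by
    intro j
    have := hrel (BraidEq.r1t2_eq j)
    rwa [map_commutatorElement, map_inv] at this
  have f6 := fun (j k : Fin b) (h : k < j) => hrel (BraidEq.r1t2_gt j k h)
  have f7 : ∀ j k : Fin b, j < k → ⁅ψ (FreeGroup.of (Gen.t1 j)), ψ (FreeGroup.of (Gen.r2 k))⁆ = 1 := by
    intro j k h
    have := hrel (BraidEq.t1r2_lt j k h)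
    rwa [map_commutatorElement, map_one] at this
  have f8 : ∀ j : Fin b, ⁅ψ (FreeGroup.of (Gen.t1 j)), ψ (FreeGroup.of (Gen.r2 j))⁆ =
      (ψ (FreeGroup.of (Gen.t2 j)))⁻¹ * z * ψ (FreeGroup.of (Gen.t2 j)) := by
    intro j
    have := hrel (BraidEq.t1r2_eq j)
    simpa only [map_commutatorElement, map_mul, map_inv] using this
  have f9 := fun (j k : Fin b) (h : k < j) => hrel (BraidEq.t1r2_gt j k h)
  have f10 : ∀ j k : Fin b, j < k →
      ⁅ψ (FreeGroup.of (Gen.t1 j)), ψ (FreeGroup.of (Gen.t2 k))⁆ = 1 := by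
    intro j k h
    have := hrel (BraidEq.t1t2_lt j k h)
    rwa [map_commutatorElement, map_one] at this
  have f11 := fun (j : Fin b) => hrel (BraidEq.t1t2_eq j)
  have f12 := fun (j k : Fin b) (h : k < j) => hrel (BraidEq.t1t2_gt j k h)
  simp only [← hψ, map_commutatorElement, map_mul, map_inv] at f3 f6 f9 f11 f12
  simp only [← hz] at f3 f6 f9 f11 f12
  refine ⟨f1, f4, f7, f10, f2, f5, f8, ?_, ?_, ?_, ?_, hne⟩
  · intro j k
    rcases lt_trichotomy j k with h | rfl | h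
    · rw [f1 j k h]; exact M.one_mem
    · rw [f2 j]; exact M.one_mem
    · rw [f3 j k h]
      have e : ∀ a c : G, z⁻¹ * a * c⁻¹ * z * c * a⁻¹ = z⁻¹ * (a * (c⁻¹ * z * c) * a⁻¹) := by
        intro a c; group
      rw [e]
      refine M.mul_mem (M.inv_mem hzM) (hMn.conj_mem _ ?_ _)
      have := hMn.conj_mem z hzM (ψ (FreeGroup.of (Gen.r2 j)))⁻¹
      rwa [inv_inv] at this
  · intro j k
    rcases lt_trichotomy j k with h | rfl | h
    · rw [f4 j k h]; exact M.one_mem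
    · rw [f5 j]; exact M.inv_mem hzM
    · rw [f6 j k h]; exact hcl' _
  · intro j k
    rcases lt_trichotomy j k with h | rfl | h
    · rw [f7 j k h]; exact M.one_mem
    · rw [f8 j]
      have := hMn.conj_mem z hzM (ψ (FreeGroup.of (Gen.t2 j)))⁻¹
      rwa [inv_inv] at this
    · rw [f9 j k h]; exact hcl _
  · intro j k
    rcases lt_trichotomy j k with h | rfl | h
    · rw [f10 j k h]; exact M.one_mem
    · rw [f11 j]; exact hcl _
    · rw [f12 j k h]
      have e : ∀ a c : G, c⁻¹ * z * c * z⁻¹ * a * z * c⁻¹ * z⁻¹ * c * a⁻¹ =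
          (c⁻¹ * z * c) * z⁻¹ * (a * (z * (c⁻¹ * z⁻¹ * c)) * a⁻¹) := by
        intro a c; group
      rw [e]
      have h1 : ∀ c w : G, w ∈ M → c⁻¹ * w * c ∈ M := by
        intro c w hw
        have := hMn.conj_mem w hw c⁻¹
        rwa [inv_inv] at this
      exact M.mul_mem (M.mul_mem (h1 _ _ hzM) (M.inv_mem hzM))
        (hMn.conj_mem _ (M.mul_mem hzM (h1 _ _ (M.inv_mem hzM))) _)

/-- The lower bound for admissible quotients. -/
theorem card_ge (hb : 2 ≤ b) (h : IsAdmissibleQuotient b G) : 2 ^ (2 * b + 1) ≤ Nat.card G := by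
  obtain ⟨hfin, φ, -, h2⟩ := h
  have hne : φ (A12 b) ≠ 1 := by
    intro h1
    rw [h1, orderOf_one] at h2
    omega
  exact (dd_of_hom φ hne).lower hb

end

/-- `G_b = 2 ^ (2 b + 1)`. -/
theorem main {b : ℕ} (hb : 2 ≤ b) : IsLeast (admissibleOrders b) (2 ^ (2 * b + 1)) := by
  constructor
  · exact ⟨Heis b, inferInstance, heis_admissible hb, card_heis⟩
  · rintro n ⟨G, _, hG, rfl⟩
    exact card_ge hb hG

theorem minOrder_eq {b : ℕ} (hb : 2 ≤ b) : minOrder b = 2 ^ (2 * b + 1) :=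
  (main hb).csInf_eq

end Pool.Agent.Helper36.Braid
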